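import Mathlib

open Polynomial

namespace Pool.Agent.Results.MP_21e947_nt.DoubleRoot

/-- The quadrinomial `x^n + x^m + x^k + a`, viewed over `ℂ`. -/
noncomputable def f (n m k : ℕ) (a : ℚ) : ℂ[X] := X ^ n + X ^ m + X ^ k + C (a : ℂ)

/-- Some complex number is a root of multiplicity at least two. -/
def HasMultipleRoot (p : ℂ[X]) : Prop := ∃ θ : ℂ, 2 ≤ rootMultiplicity θ p

lemma ex : HasMultipleRoot (f 45 43 42 (-(2 ^ 42 / 3 ^ 45))) := by
  have h0 : f 45 43 42 (-(2 ^ 42 / 3 ^ 45)) ≠ 0 := by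
    intro h
    have := congrArg (eval 0) h
    simp [f] at this
  refine ⟨-2 / 3, (one_lt_rootMultiplicity_iff_isRoot h0).2 ⟨?_, ?_⟩⟩
  · simp only [f, IsRoot.def, eval_add, eval_pow, eval_X, eval_C]
    push_cast; norm_num
  · simp only [f, IsRoot.def, derivative_add, derivative_X_pow, derivative_C, eval_add, eval_mul,
      eval_pow, eval_X, eval_C, eval_zero]
    push_cast; norm_num

theorem result :
    HasMultipleRoot (f 45 43 42 (-(2 ^ 42 / 3 ^ 45))) ∧
    ¬ ∀ (a : ℚ) (n m k : ℕ), a ≠ 0 → m < n → k < m → 1 ≤ k → HasMultipleRoot (f n m k a) →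
      a = 1 ∧ ∃ d t u : ℕ, 1 ≤ d ∧ Odd t ∧ Odd u ∧ u < t ∧ 1 ≤ u ∧
        n = d * (t + u) ∧ m = d * t ∧ k = d * u := by
  refine ⟨ex, fun h => ?_⟩
  have := (h _ 45 43 42 (by norm_num) (by norm_num) (by norm_num) (by norm_num) ex).1
  norm_num at this

end Pool.Agent.Results.MP_21e947_nt.DoubleRoot
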